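import Pool.Agent.H58.FN.Targets

/-!
# Row MLB: the mean monopole numbers of labelled families
-/

set_option autoImplicit false

open Topology

namespace Pool.Agent.H42.FN

open Pool.Agent.H59 Pool.Agent.H48.FR Pool.Agent.H58.FL Pool.Agent.H30.FA Pool.Agent.H58.FM
  Pool.Agent.H58.FN

private theorem mlb1 : ∀ a b : Fin 4, ∑ k : Fin 4, ∑ l : Fin 4, sg4 a b k l = 0 := by
  decide +kernel

private theorem mlb2 : ∀ a b : Fin 4, ∑ k : Fin 4, ∑ l : Fin 4, sg4 a k l b = 0 := by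
  decide +kernel

private theorem mlb3 : ∀ a b : Fin 4, ∑ k : Fin 4, ∑ l : Fin 4, sg4 k l a b = 0 := by
  decide +kernel

private theorem mlb_re {J : Type} (c : J → Fin 4) (q q' : Fin 4 → J)
    (hq : Function.Bijective (c ∘ q)) (hq' : Function.Bijective (c ∘ q'))
    (g : Fin 4 → Fin 4 → ℝ) :
    ∑ k, ∑ l, g (c (q k)) (c (q' l)) = ∑ k, ∑ l, g k l := by
  have h1 : ∀ k, ∑ l, g (c (q k)) (c (q' l)) = ∑ l, g (c (q k)) l := fun k =>
    hq'.sum_comp (g (c (q k)))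
  rw [Finset.sum_congr rfl fun k _ => h1 k]
  exact hq.sum_comp (fun k => ∑ l, g k l)

private theorem mlb_sw {n : ℕ} (f : Fin 4 → Fin 4 → Fin n → ℝ) :
    ∑ k, ∑ l, ∑ j, f k l j = ∑ j, ∑ k, ∑ l, f k l j := by
  have h1 : ∀ k, ∑ l, ∑ j, f k l j = ∑ j, ∑ l, f k l j := fun k => Finset.sum_comm
  rw [Finset.sum_congr rfl fun k _ => h1 k]
  exact Finset.sum_comm

theorem pf_MLB : T_MLB := by
  intro E J _ _ x c H hH a b A B q q' hA hB hq hq' hbq hbq'
  have e1 : ∑ i, ∑ j, ∑ k, ∑ l, mn (x (A i)) (x (B j)) (x (q k)) (x (q' l)) = 0 := by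
    refine Finset.sum_eq_zero fun i _ => Finset.sum_eq_zero fun j _ => ?_
    have h1 : ∀ k l, mn (x (A i)) (x (B j)) (x (q k)) (x (q' l)) =
        (sg4 (c (A i)) (c (B j)) (c (q k)) (c (q' l)) : ℝ) := fun k l =>
      hH _ (hA i) _ (hB j) _ (hq k) _ (hq' l)
    simp only [h1]
    rw [mlb_re c q q' hbq hbq' (fun k l => (sg4 (c (A i)) (c (B j)) k l : ℝ))]
    exact_mod_cast mlb1 _ _
  have e2 : ∑ i, ∑ k, ∑ l, ∑ j, mn (x (A i)) (x (q k)) (x (q' l)) (x (B j)) = 0 := by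
    refine Finset.sum_eq_zero fun i _ => ?_
    rw [mlb_sw (fun k l j => mn (x (A i)) (x (q k)) (x (q' l)) (x (B j)))]
    refine Finset.sum_eq_zero fun j _ => ?_
    have h1 : ∀ k l, mn (x (A i)) (x (q k)) (x (q' l)) (x (B j)) =
        (sg4 (c (A i)) (c (q k)) (c (q' l)) (c (B j)) : ℝ) := fun k l =>
      hH _ (hA i) _ (hq k) _ (hq' l) _ (hB j)
    simp only [h1]
    rw [mlb_re c q q' hbq hbq' (fun k l => (sg4 (c (A i)) k l (c (B j)) : ℝ))]
    exact_mod_cast mlb2 _ _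
  have e3 : ∑ k, ∑ l, ∑ i, ∑ j, mn (x (q k)) (x (q' l)) (x (A i)) (x (B j)) = 0 := by
    rw [mlb_sw (fun k l i => ∑ j, mn (x (q k)) (x (q' l)) (x (A i)) (x (B j)))]
    refine Finset.sum_eq_zero fun i _ => ?_
    rw [mlb_sw (fun k l j => mn (x (q k)) (x (q' l)) (x (A i)) (x (B j)))]
    refine Finset.sum_eq_zero fun j _ => ?_
    have h1 : ∀ k l, mn (x (q k)) (x (q' l)) (x (A i)) (x (B j)) =
        (sg4 (c (q k)) (c (q' l)) (c (A i)) (c (B j)) : ℝ) := fun k l =>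
      hH _ (hq k) _ (hq' l) _ (hA i) _ (hB j)
    simp only [h1]
    rw [mlb_re c q q' hbq hbq' (fun k l => (sg4 k l (c (A i)) (c (B j)) : ℝ))]
    exact_mod_cast mlb3 _ _
  refine ⟨?_, ?_, ?_⟩
  · unfold MM
    rw [div_eq_zero_iff]
    left
    exact e1
  · unfold MM
    rw [div_eq_zero_iff]
    left
    exact e2
  · unfold MM
    rw [div_eq_zero_iff]
    left
    exact e3

end Pool.Agent.H42.FN
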